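import Pool.Agent.N440.LB.Stm

/-!
The contribution of a side with mean zero vanishes.
-/

set_option autoImplicit false

namespace Pool.Agent.N370.LB

open Complex Set MeasureTheory Filter Topology Pool.Agent.W780.PG Pool.Agent.W780.BB
  Pool.Agent.TH103.BL Pool.Agent.N440.LB

open scoped Real ComplexConjugate

lemma ii {E : Type} [NormedAddCommGroup E] {f : ℝ → E} {a b K : ℝ}
    (hf : StronglyMeasurable f) (hK : ∀ x, ‖f x‖ ≤ K) : IntervalIntegrable f volume a b := by
  rw [intervalIntegrable_iff]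
  exact Measure.integrableOn_of_bounded (by simp) hf.aestronglyMeasurable
    (Eventually.of_forall hK)

lemma swp {f : ℝ → ℝ → ℝ} {a b c d K : ℝ} (hf : Measurable (Function.uncurry f))
    (hK : ∀ x, ∀ y ∈ uIoc c d, |f x y| ≤ K) :
    ∫ x in a..b, ∫ y in c..d, f x y = ∫ y in c..d, ∫ x in a..b, f x y := by
  apply intervalIntegral_intervalIntegral_swap
  refine Measure.integrableOn_of_bounded (M := K) ?_ hf.aestronglyMeasurable ?_
  · rw [Measure.volume_eq_prod, Measure.prod_prod]
    exact ENNReal.mul_ne_top (by simp) (by simp)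
  · rw [ae_restrict_iff' (measurableSet_uIoc.prod measurableSet_uIoc)]
    exact Eventually.of_forall fun x hx => hK x.1 x.2 hx.2

lemma off_add (θ : ℝ) (z w : ℂ) : off θ (z + w) = off θ z + off θ w := by
  simp [off, mul_add]

lemma off_smul (θ s : ℝ) (z : ℂ) : off θ (s • z) = s * off θ z := by
  simp only [off, real_smul]
  rw [show (starRingEnd ℂ) (dir θ) * ((s : ℂ) * z) = (s : ℂ) * ((starRingEnd ℂ) (dir θ) * z) by ring,
    im_ofReal_mul]

lemma continuous_dir : Continuous dir := by
  unfold dir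
  fun_prop

lemma measurable_off : Measurable (fun x : ℝ × ℂ => off x.1 x.2) := by
  unfold off
  have : Continuous (fun x : ℝ × ℂ => ((starRingEnd ℂ) (dir x.1) * x.2).im) :=
    continuous_im.comp (((continuous_conj.comp (continuous_dir.comp continuous_fst))).mul
      continuous_snd)
  exact this.measurable

lemma off_per (θ : ℝ) (z : ℂ) : off (θ + 2 * π) z = off θ z := by
  unfold off dir
  have : exp (((θ + 2 * π : ℝ) : ℂ) * I) = exp ((θ : ℂ) * I) := by
    push_cast
    rw [add_mul, exp_add, exp_two_pi_mul_I, mul_one]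
  rw [this]

lemma off_eq {v : ℂ} (θ : ℝ) : off θ v = ‖v‖ * Real.sin (arg v - θ) := by
  have hv : v = (‖v‖ : ℂ) * exp ((arg v : ℂ) * I) := (norm_mul_exp_arg_mul_I v).symm
  have h : (starRingEnd ℂ) (dir θ) * v = (‖v‖ : ℂ) * exp (((arg v - θ : ℝ) : ℂ) * I) := by
    conv_lhs => rw [hv]
    unfold dir
    rw [← exp_conj, map_mul, conj_ofReal, conj_I]
    rw [mul_left_comm, ← exp_add]
    congr 2
    push_cast
    ring
  unfold off
  rw [h, im_ofReal_mul, exp_ofReal_mul_I_im]

lemma ae_sin (τ : ℝ) : ∀ᵐ θ : ℝ, Real.sin (θ - τ) ≠ 0 := by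
  have h : {θ : ℝ | Real.sin (θ - τ) = 0} ⊆ Set.range (fun m : ℤ => (m : ℝ) * π + τ) := by
    intro θ hθ
    obtain ⟨m, hm⟩ := Real.sin_eq_zero_iff.1 hθ
    exact ⟨m, by simp only; linarith⟩
  have h2 : volume {θ : ℝ | Real.sin (θ - τ) = 0} = 0 :=
    measure_mono_null h ((Set.countable_range _).measure_zero _)
  exact (measure_eq_zero_iff_ae_notMem.1 h2)

theorem t_I2 : S_I2 := by
  intro hGF hSY n p i hne F C hF hb hper hrefl hM k
  obtain ⟨hG1, hG2, hG3, hG4⟩ := hGF F C hF hb
  have hC : 0 ≤ C := (abs_nonneg _).trans (hb 0 0)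
  set v : ℂ := p (i + 1) - p i with hv
  set τ : ℝ := tau p i with hτ
  have hoff : ∀ θ, off θ v = ‖v‖ * Real.sin (τ - θ) := fun θ => off_eq θ
  set z : ℝ → ℂ := fun t => pt p i t with hz
  have hzc : Continuous z := by
    have : z = fun t : ℝ => p i + t • v := rfl
    rw [this]
    fun_prop
  set a : ℝ → ℝ → ℝ := fun t θ => F θ (off θ (z t)) with ha
  have ham : Measurable (Function.uncurry a) := by
    have q1 : Measurable (fun x : ℝ × ℝ => z x.1) := hzc.measurable.comp measurable_fst
    have q2 : Measurable (fun x : ℝ × ℝ => ((x.2, z x.1) : ℝ × ℂ)) := measurable_snd.prodMk q1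
    have q3 : Measurable (fun x : ℝ × ℝ => off x.2 (z x.1)) := measurable_off.comp q2
    have q4 : Measurable (fun x : ℝ × ℝ => ((x.2, off x.2 (z x.1)) : ℝ × ℝ)) :=
      measurable_snd.prodMk q3
    exact hF.comp q4
  have hab : ∀ t θ, |a t θ| ≤ C := fun t θ => hb _ _
  have hap : ∀ t θ, a t (θ + 2 * π) = a t θ := by
    intro t θ
    simp only [ha]
    rw [hper, off_per]
  have has : ∀ t ∈ Ioo (0 : ℝ) 1, ∀ θ, Real.sin (θ - τ) ≠ 0 → a t (2 * τ - θ) = a t θ :=
    fun t ht θ hθ => hrefl t ht θ hθ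
  -- the complex Fourier coefficient
  set Ψ : ℂ → ℂ := fun x => ∫ θ in (0 : ℝ)..(2 * π), exp (((k * θ : ℝ) : ℂ) * I) * (G F x θ : ℂ)
    with hΨ
  have hexm : Measurable (fun θ : ℝ => exp (((k * θ : ℝ) : ℂ) * I)) := by
    have : Continuous (fun θ : ℝ => exp (((k * θ : ℝ) : ℂ) * I)) := by fun_prop
    exact this.measurable
  have hΨm : Measurable Ψ := by
    have h1 : StronglyMeasurable (fun x : ℂ × ℝ => exp (((k * x.2 : ℝ) : ℂ) * I) * (G F x.1 x.2 : ℂ)) :=
      ((hexm.comp measurable_snd).mul (measurable_ofReal.comp hG1)).stronglyMeasurable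
    have h2 := (h1.integral_prod_right' (ν := volume.restrict (Ioc (0 : ℝ) (2 * π)))).measurable
    have h3 : Ψ = fun x => ∫ y, exp (((k * y : ℝ) : ℂ) * I) * (G F x y : ℂ)
        ∂(volume.restrict (Ioc (0 : ℝ) (2 * π))) := by
      funext x
      simp only [hΨ]
      rw [intervalIntegral.integral_of_le (by positivity)]
    rw [h3]
    exact h2
  have hΨi : ∀ x, IntervalIntegrable (fun θ : ℝ => exp (((k * θ : ℝ) : ℂ) * I) * (G F x θ : ℂ))
      volume 0 (2 * π) := by
    intro x
    refine ii (K := C * ‖x‖) ?_ ?_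
    · exact (hexm.mul (measurable_ofReal.comp
        (hG1.comp (measurable_const.prodMk measurable_id)))).stronglyMeasurable
    · intro θ
      rw [norm_mul, norm_exp_ofReal_mul_I, one_mul, norm_real, Real.norm_eq_abs]
      exact hG2 _ _
  have hΨb : ∀ x, ‖Ψ x‖ ≤ C * ‖x‖ * |2 * π - 0| := by
    intro x
    refine intervalIntegral.norm_integral_le_of_norm_le_const fun θ _ => ?_
    rw [norm_mul, norm_exp_ofReal_mul_I, one_mul, norm_real, Real.norm_eq_abs]
    exact hG2 _ _
  have hcomb : ∀ (x : ℂ) (s : ℝ), exp (-((k * s : ℝ) : ℂ) * I) * Ψ x =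
      ∫ θ in (0 : ℝ)..(2 * π), exp (((k * (θ - s) : ℝ) : ℂ) * I) * (G F x θ : ℂ) := by
    intro x s
    simp only [hΨ]
    rw [← intervalIntegral.integral_const_mul]
    refine intervalIntegral.integral_congr fun θ _ => ?_
    beta_reduce
    rw [← mul_assoc, ← exp_add]
    congr 2
    push_cast
    ring
  have hcombi : ∀ (x : ℂ) (s : ℝ), IntervalIntegrable
      (fun θ : ℝ => exp (((k * (θ - s) : ℝ) : ℂ) * I) * (G F x θ : ℂ)) volume 0 (2 * π) := by
    intro x s
    refine ii (K := C * ‖x‖) ?_ ?_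
    · have h : Continuous (fun θ : ℝ => exp (((k * (θ - s) : ℝ) : ℂ) * I)) := by fun_prop
      exact (h.measurable.mul (measurable_ofReal.comp
        (hG1.comp (measurable_const.prodMk measurable_id)))).stronglyMeasurable
    · intro θ
      rw [norm_mul, norm_exp_ofReal_mul_I, one_mul, norm_real, Real.norm_eq_abs]
      exact hG2 _ _
  have hAk : ∀ (x : ℂ) (s : ℝ), Ak F k x s = (exp (-((k * s : ℝ) : ℂ) * I) * Ψ x).im := by
    intro x s
    rw [hcomb, ← imCLM_apply, ← ContinuousLinearMap.intervalIntegral_comp_comm _ (hcombi x s)]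
    unfold Ak
    refine intervalIntegral.integral_congr fun θ _ => ?_
    simp only [imCLM_apply]
    rw [im_mul_ofReal, exp_ofReal_mul_I_im]
  have hR : ∀ (x : ℂ) (s : ℝ), (exp (-((k * s : ℝ) : ℂ) * I) * Ψ x).re =
      ∫ θ in (0 : ℝ)..(2 * π), Real.cos (k * (θ - s)) * G F x θ := by
    intro x s
    rw [hcomb, ← reCLM_apply, ← ContinuousLinearMap.intervalIntegral_comp_comm _ (hcombi x s)]
    refine intervalIntegral.integral_congr fun θ _ => ?_
    simp only [reCLM_apply]
    rw [re_mul_ofReal, exp_ofReal_mul_I_re]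
  set R : ℝ → ℝ := fun t => (exp (-((k * τ : ℝ) : ℂ) * I) * Ψ (z t)).re with hRdef
  -- R is constant
  have hRc : ∀ t ∈ Ioo (0 : ℝ) 1, ∀ t0 ∈ Ioo (0 : ℝ) 1, R t = R t0 := by
    intro t ht t0 ht0
    have hGi : ∀ x, IntervalIntegrable (fun θ => Real.cos (k * (θ - τ)) * G F x θ) volume 0 (2 * π) := by
      intro x
      refine ii (K := C * ‖x‖) ?_ ?_
      · have h : Continuous (fun θ : ℝ => Real.cos (k * (θ - τ))) := by fun_prop
        exact (h.measurable.mul (hG1.comp (measurable_const.prodMk measurable_id))).stronglyMeasurable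
      · intro θ
        rw [norm_mul, Real.norm_eq_abs, Real.norm_eq_abs]
        calc |Real.cos (k * (θ - τ))| * |G F x θ| ≤ 1 * (C * ‖x‖) := by
              gcongr
              · exact Real.abs_cos_le_one _
              · exact hG2 _ _
          _ = C * ‖x‖ := one_mul _
    set b : ℝ → ℝ := fun θ => ∫ r in (0 : ℝ)..1, F θ (off θ (z t0 + r • (z t - z t0))) with hbdef
    have hzz : ∀ r : ℝ, z t0 + r • (z t - z t0) = z (t0 + r * (t - t0)) := by
      intro r
      simp only [hz, pt, ← hv]
      simp only [real_smul]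
      push_cast
      ring
    have hbe : b = fun θ => ∫ r in (0 : ℝ)..1, a (t0 + r * (t - t0)) θ := by
      funext θ
      simp only [hbdef, ha]
      refine intervalIntegral.integral_congr fun r _ => ?_
      beta_reduce
      rw [hzz]
    have hbm : Measurable b := by
      have h1 : StronglyMeasurable (fun x : ℝ × ℝ => a (t0 + x.2 * (t - t0)) x.1) := by
        refine (ham.comp ((Measurable.prodMk ?_ measurable_fst) : Measurable
          (fun x : ℝ × ℝ => (t0 + x.2 * (t - t0), x.1)))).stronglyMeasurable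
        exact measurable_const.add (measurable_snd.mul_const _)
      have h2 := (h1.integral_prod_right' (ν := volume.restrict (Ioc (0 : ℝ) 1))).measurable
      have h3 : b = fun θ => ∫ y, a (t0 + y * (t - t0)) θ ∂(volume.restrict (Ioc (0 : ℝ) 1)) := by
        rw [hbe]
        funext x
        rw [intervalIntegral.integral_of_le (by norm_num)]
      rw [h3]
      exact h2
    have hbb : ∀ θ, |b θ| ≤ C := by
      intro θ
      have := intervalIntegral.norm_integral_le_of_norm_le_const (a := (0 : ℝ)) (b := 1)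
        (f := fun r => F θ (off θ (z t0 + r • (z t - z t0)))) (C := C) (fun r _ => hb _ _)
      have h : |b θ| ≤ C * |1 - 0| := this
      simpa using h
    have hbp : ∀ θ, b (θ + 2 * π) = b θ := by
      intro θ
      rw [hbe]
      exact intervalIntegral.integral_congr fun r _ => hap _ _
    have hbs : ∀ᵐ θ : ℝ, b (2 * τ - θ) = b θ := by
      filter_upwards [ae_sin τ] with θ hθ
      rw [hbe]
      refine intervalIntegral.integral_congr fun r hr => ?_
      rw [uIcc_of_le (by norm_num : (0 : ℝ) ≤ 1)] at hr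
      refine has _ ?_ θ hθ
      obtain ⟨h1, h2⟩ := hr
      obtain ⟨h3, h4⟩ := ht
      obtain ⟨h5, h6⟩ := ht0
      constructor
      · rcases eq_or_lt_of_le h2 with h | h
        · rw [h]; linarith
        · nlinarith [mul_nonneg h1 h3.le, mul_pos (sub_pos.2 h) h5]
      · rcases eq_or_lt_of_le h2 with h | h
        · rw [h]; linarith
        · nlinarith [mul_nonneg h1 (sub_nonneg.2 h4.le), mul_pos (sub_pos.2 h) (sub_pos.2 h6)]
    have h0 := (hSY b C τ k hbm hbb hbp hbs).1
    have hdiff : R t - R t0 = (t - t0) * ‖v‖ * ∫ θ in (0 : ℝ)..(2 * π),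
        Real.cos (k * (θ - τ)) * (Real.sin (τ - θ) * b θ) := by
      simp only [hRdef]
      rw [hR, hR, ← intervalIntegral.integral_sub (hGi _) (hGi _),
        ← intervalIntegral.integral_const_mul]
      refine intervalIntegral.integral_congr fun θ _ => ?_
      beta_reduce
      rw [← mul_sub, hG3]
      have h1 : off θ (z t - z t0) = (t - t0) * (‖v‖ * Real.sin (τ - θ)) := by
        have : z t - z t0 = (t - t0) • v := by
          simp only [hz, pt, ← hv]
          simp only [real_smul]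
          push_cast
          ring
        rw [this, off_smul, hoff]
      rw [h1]
      simp only [hbdef]
      ring
    rw [h0, mul_zero] at hdiff
    linarith
  -- swap
  set H : ℝ → ℝ := fun t => ∫ θ in (0 : ℝ)..(2 * π),
    Real.sin (θ - τ) * (Real.sin (k * (θ - τ)) * a t θ) with hH
  set f : ℝ → ℝ → ℝ := fun s t =>
    ‖v‖ * (Real.sin (τ - s) * (a t s * (exp (-((k * s : ℝ) : ℂ) * I) * Ψ (z t)).im)) with hf
  have hJ : ∫ s in (0 : ℝ)..(2 * π), off s v *
      ∫ t in (0 : ℝ)..1, F s (off s (pt p i t)) * Ak F k (pt p i t) s =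
      ∫ s in (0 : ℝ)..(2 * π), ∫ t in (0 : ℝ)..1, f s t := by
    refine intervalIntegral.integral_congr fun s _ => ?_
    simp only [hf]
    rw [← intervalIntegral.integral_const_mul]
    refine intervalIntegral.integral_congr fun t _ => ?_
    beta_reduce
    rw [hAk, hoff]
    simp only [ha, hz]
    ring
  have hfm : Measurable (Function.uncurry f) := by
    have e1 : Measurable (fun x : ℝ × ℝ => exp (-((k * x.1 : ℝ) : ℂ) * I)) := by
      have : Continuous (fun s : ℝ => exp (-((k * s : ℝ) : ℂ) * I)) := by fun_prop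
      exact this.measurable.comp measurable_fst
    have e2 : Measurable (fun x : ℝ × ℝ => Ψ (z x.2)) :=
      hΨm.comp (hzc.measurable.comp measurable_snd)
    have e3 : Measurable (fun x : ℝ × ℝ => (exp (-((k * x.1 : ℝ) : ℂ) * I) * Ψ (z x.2)).im) :=
      measurable_im.comp (e1.mul e2)
    have e4 : Measurable (fun x : ℝ × ℝ => a x.2 x.1) := ham.comp measurable_swap
    have e5 : Measurable (fun x : ℝ × ℝ => Real.sin (τ - x.1)) :=
      Real.measurable_sin.comp (measurable_const.sub measurable_fst)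
    exact measurable_const.mul (e5.mul (e4.mul e3))
  have hfb : ∀ s, ∀ t ∈ uIoc (0 : ℝ) 1, |f s t| ≤
      ‖v‖ * (1 * (C * (C * (‖p i‖ + ‖v‖) * |2 * π - 0|))) := by
    intro s t ht
    rw [uIoc_of_le (by norm_num)] at ht
    simp only [hf]
    rw [abs_mul, abs_mul, abs_mul, abs_norm]
    have h1 : ‖z t‖ ≤ ‖p i‖ + ‖v‖ := by
      calc ‖z t‖ = ‖p i + t • v‖ := rfl
        _ ≤ ‖p i‖ + ‖t • v‖ := norm_add_le _ _
        _ ≤ ‖p i‖ + ‖v‖ := by
            rw [norm_smul, Real.norm_eq_abs, abs_of_pos ht.1]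
            have := mul_le_mul_of_nonneg_right ht.2 (norm_nonneg v)
            linarith
    have h2 : |(exp (-((k * s : ℝ) : ℂ) * I) * Ψ (z t)).im| ≤
        C * (‖p i‖ + ‖v‖) * |2 * π - 0| := by
      calc |(exp (-((k * s : ℝ) : ℂ) * I) * Ψ (z t)).im|
          ≤ ‖exp (-((k * s : ℝ) : ℂ) * I) * Ψ (z t)‖ := abs_im_le_norm _
        _ = ‖Ψ (z t)‖ := by
            rw [norm_mul, ← ofReal_neg, norm_exp_ofReal_mul_I, one_mul]
        _ ≤ C * ‖z t‖ * |2 * π - 0| := hΨb _
        _ ≤ _ := by gcongr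
    gcongr
    · exact Real.abs_sin_le_one _
    · exact hab _ _
  rw [hJ, swp hfm hfb]
  have hinner : ∀ t ∈ Ioo (0 : ℝ) 1, ∫ s in (0 : ℝ)..(2 * π), f s t = (‖v‖ * R (1 / 2)) * H t := by
    intro t ht
    have h1 := (hSY (a t) C τ k (ham.comp (measurable_const.prodMk measurable_id)) (hab t) (hap t)
      (by filter_upwards [ae_sin τ] with θ hθ using has t ht θ hθ)).2 (Ψ (z t))
    simp only [hf]
    rw [intervalIntegral.integral_const_mul, h1]
    have h2 : (exp (-((k * τ : ℝ) : ℂ) * I) * Ψ (z t)).re = R (1 / 2) :=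
      hRc t ht (1 / 2) ⟨by norm_num, by norm_num⟩
    rw [h2]
    simp only [hH]
    ring
  have h3 : ∫ t in (0 : ℝ)..1, ∫ s in (0 : ℝ)..(2 * π), f s t =
      ∫ t in (0 : ℝ)..1, (‖v‖ * R (1 / 2)) * H t := by
    refine intervalIntegral.integral_congr_ae ?_
    have h1 : ∀ᵐ t : ℝ, t ≠ 1 := by
      have : volume ({1} : Set ℝ) = 0 := measure_singleton 1
      filter_upwards [measure_eq_zero_iff_ae_notMem.1 this] with t ht using ht
    filter_upwards [h1] with t ht1 ht
    rw [uIoc_of_le (by norm_num)] at ht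
    exact hinner t ⟨ht.1, lt_of_le_of_ne ht.2 ht1⟩
  rw [h3, intervalIntegral.integral_const_mul]
  have h4 : ∫ t in (0 : ℝ)..1, H t = 0 := by
    simp only [hH]
    have hm : Measurable (Function.uncurry (fun s t : ℝ =>
        Real.sin (s - τ) * (Real.sin (k * (s - τ)) * a t s))) := by
      have e4 : Measurable (fun x : ℝ × ℝ => a x.2 x.1) := ham.comp measurable_swap
      have e5 : Measurable (fun x : ℝ × ℝ => Real.sin (x.1 - τ)) :=
        Real.measurable_sin.comp (measurable_fst.sub_const _)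
      have e6 : Measurable (fun x : ℝ × ℝ => Real.sin (k * (x.1 - τ))) :=
        Real.measurable_sin.comp ((measurable_fst.sub_const _).const_mul _)
      exact e5.mul (e6.mul e4)
    have hbd : ∀ s, ∀ t ∈ uIoc (0 : ℝ) 1,
        |Real.sin (s - τ) * (Real.sin (k * (s - τ)) * a t s)| ≤ 1 * (1 * C) := by
      intro s t _
      rw [abs_mul, abs_mul]
      gcongr
      · exact Real.abs_sin_le_one _
      · exact Real.abs_sin_le_one _
      · exact hab _ _
    rw [← swp hm hbd]
    have : ∀ᵐ s : ℝ, s ∈ uIoc (0 : ℝ) (2 * π) → (∫ t in (0 : ℝ)..1,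
        Real.sin (s - τ) * (Real.sin (k * (s - τ)) * a t s)) = 0 := by
      filter_upwards [hM] with s hs _
      rw [intervalIntegral.integral_const_mul, intervalIntegral.integral_const_mul]
      have : ∫ t in (0 : ℝ)..1, a t s = 0 := hs
      rw [this]
      simp
    rw [intervalIntegral.integral_congr_ae this]
    simp
  rw [h4, mul_zero]

end Pool.Agent.N370.LB
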